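import Pool.Agent.FNW.Pot
import Pool.Agent.H34.Dec.Cover

/-!
Existence of the weighting of the triangles.
-/

open Finset Filter Topology
open scoped Classical

namespace Pool.FNW

open Pool.H34.Dec (cov)

variable {V : Type*} [Fintype V] {G : SimpleGraph V}

/-- admissible weightings with capacity -/
def Wei (G : SimpleGraph V) (B : ℝ) : Set (Finset V → ℝ) :=
  {w | (∀ K, 0 ≤ w K) ∧ (∀ K, w K ≤ B) ∧
    ∀ K : Finset V, ¬ (G.IsClique (K : Set V) ∧ K.card = 3) → w K = 0}

omit [Fintype V] in
lemma wei_compact (B : ℝ) : IsCompact (Wei G B) := by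
  have hK : IsCompact (Set.pi Set.univ fun _ : Finset V => Set.Icc (0 : ℝ) B) :=
    isCompact_univ_pi fun _ => isCompact_Icc
  refine hK.of_isClosed_subset ?_ ?_
  · have : Wei G B = (⋂ K : Finset V, {w : Finset V → ℝ | 0 ≤ w K}) ∩
        ((⋂ K : Finset V, {w : Finset V → ℝ | w K ≤ B}) ∩
        (⋂ K : Finset V, ⋂ _ : ¬ (G.IsClique (K : Set V) ∧ K.card = 3),
          {w : Finset V → ℝ | w K = 0})) := by
      ext w
      simp only [Wei, Set.mem_ofPred_eq, Set.mem_inter_iff, Set.mem_iInter]
    rw [this]
    refine IsClosed.inter ?_ (IsClosed.inter ?_ ?_)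
    · exact isClosed_iInter fun K => isClosed_le continuous_const (continuous_apply K)
    · exact isClosed_iInter fun K => isClosed_le (continuous_apply K) continuous_const
    · exact isClosed_iInter fun K => isClosed_iInter fun _ =>
        isClosed_eq (continuous_apply K) continuous_const
  · intro w hw
    simp only [Set.mem_pi, Set.mem_univ, true_implies, Set.mem_Icc]
    exact fun K => ⟨hw.1 K, hw.2.1 K⟩

lemma cov_cont (a b : V) : Continuous fun w : Finset V → ℝ => cov w a b := by
  unfold cov
  refine continuous_finsetSum _ fun K _ => ?_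
  by_cases h : a ∈ K ∧ b ∈ K
  · simp only [if_pos h]; exact continuous_apply K
  · simp only [if_neg h]; exact continuous_const

lemma cov_add (w : Finset V → ℝ) (K : Finset V) (t : ℝ) (a b : V) :
    cov (fun L => w L + if L = K then t else 0) a b
      = cov w a b + if a ∈ K ∧ b ∈ K then t else 0 := by
  unfold cov
  have : ∀ L : Finset V, (if a ∈ L ∧ b ∈ L then (w L + if L = K then t else 0) else 0)
      = (if a ∈ L ∧ b ∈ L then w L else 0) + (if L = K then (if a ∈ K ∧ b ∈ K then t else 0) else 0) := by
    intro L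
    by_cases h : L = K
    · subst h; split_ifs <;> simp
    · simp [h]
  rw [Finset.sum_congr rfl fun L _ => this L, Finset.sum_add_distrib, Finset.sum_ite_eq']
  simp

lemma cov_mul (w : Finset V → ℝ) (t : ℝ) (a b : V) :
    cov (fun L => t * w L) a b = t * cov w a b := by
  unfold cov
  rw [Finset.mul_sum]
  refine Finset.sum_congr rfl fun L _ => ?_
  split_ifs <;> simp

lemma cov_symm (w : Finset V → ℝ) (a b : V) : cov w a b = cov w b a := by
  unfold cov
  refine Finset.sum_congr rfl fun K _ => ?_
  simp only [and_comm]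

/-- **the fractional decomposition** -/
theorem exists_weights (hG : ∀ v, (3 / 4 : ℝ) * Fintype.card V ≤ G.degree v) :
    ∃ w : Finset V → ℝ, (∀ K, 0 ≤ w K) ∧
      (∀ K, w K ≠ 0 → G.IsClique (K : Set V) ∧ K.card = 3) ∧
      ∀ a b, G.Adj a b → cov w a b = 1 := by
  rcases isEmpty_or_nonempty V with hV | hV
  · exact ⟨fun _ => 0, fun _ => le_rfl, fun K h => absurd rfl h, fun a => (hV.false a).elim⟩
  set n : ℝ := (Fintype.card V : ℝ) with hn
  have hn0 : 0 ≤ n := by rw [hn]; positivity
  set B : ℝ := n ^ 2 + 3 with hB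
  have hB0 : 0 ≤ B := by positivity
  have hz0 : (fun _ => 0 : Finset V → ℝ) ∈ Wei G B :=
    ⟨fun _ => le_rfl, fun _ => hB0, fun _ _ => rfl⟩
  have hcont : Continuous fun w : Finset V → ℝ =>
      ∑ a, ∑ b, (if G.Adj a b then (1 - cov w a b) ^ 2 else 0) := by
    refine continuous_finsetSum _ fun a _ => continuous_finsetSum _ fun b _ => ?_
    by_cases h : G.Adj a b
    · simp only [if_pos h]
      exact (continuous_const.sub (cov_cont a b)).pow 2
    · simp only [if_neg h]; exact continuous_const
  obtain ⟨w, hw, hmin⟩ := (wei_compact (G := G) B).exists_isMinOn ⟨_, hz0⟩ hcont.continuousOn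
  obtain ⟨w0, wB, wt⟩ := id hw
  set s : V → V → ℝ := fun a b => 1 - cov w a b with hs
  have hle : ∀ z ∈ Wei G B, ∑ a, ∑ b, (if G.Adj a b then (s a b) ^ 2 else 0)
      ≤ ∑ a, ∑ b, (if G.Adj a b then (1 - cov z a b) ^ 2 else 0) := fun z hz => hmin hz
  have hss : ∀ a b, s a b = s b a := fun a b => by simp only [hs, cov_symm w a b]
  -- bound for the weights
  have htot : ∑ a, ∑ b, (if G.Adj a b then (s a b) ^ 2 else 0) ≤ n ^ 2 := by
    refine (hle _ hz0).trans ?_
    have : ∀ a b, (if G.Adj a b then (1 - cov (fun _ => 0) a b) ^ 2 else 0) ≤ (1 : ℝ) := by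
      intro a b
      unfold cov
      split_ifs
      · simp
      · norm_num
    refine (Finset.sum_le_sum fun a _ => Finset.sum_le_sum fun b _ => this a b).trans ?_
    simp only [Finset.sum_const, Finset.card_univ, nsmul_eq_mul]
    rw [← hn]
    apply le_of_eq; ring
  have hwb : ∀ K, w K ≤ n ^ 2 + 2 := by
    intro K
    by_cases hK : G.IsClique (K : Set V) ∧ K.card = 3
    · obtain ⟨hcl, hcard⟩ := hK
      have h2 : 1 < K.card := by omega
      obtain ⟨a, ha, b, hb, hab⟩ := Finset.one_lt_card.1 h2
      have hadj : G.Adj a b := hcl ha hb hab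
      have h3 : w K ≤ cov w a b := by
        unfold cov
        have h4 := Finset.single_le_sum (s := (univ : Finset (Finset V)))
          (f := fun K => if a ∈ K ∧ b ∈ K then w K else 0)
          (fun K _ => by
            show (0 : ℝ) ≤ if a ∈ K ∧ b ∈ K then w K else 0
            split_ifs
            · exact w0 K
            · exact le_rfl) (Finset.mem_univ K)
        simp only [ha, hb, and_self, if_true] at h4
        exact h4
      have h5 : (s a b) ^ 2 ≤ n ^ 2 := by
        refine le_trans ?_ htot
        have g0 : ∀ a b, 0 ≤ (if G.Adj a b then (s a b) ^ 2 else 0) := by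
          intro a b; split_ifs
          · exact sq_nonneg _
          · exact le_rfl
        have g1 : (s a b) ^ 2 ≤ ∑ b, (if G.Adj a b then (s a b) ^ 2 else 0) := by
          have := Finset.single_le_sum (f := fun b => if G.Adj a b then (s a b) ^ 2 else 0)
            (fun b _ => g0 a b) (Finset.mem_univ b)
          simpa only [if_pos hadj] using this
        exact g1.trans (Finset.single_le_sum
          (f := fun a => ∑ b, if G.Adj a b then (s a b) ^ 2 else 0)
          (fun a _ => Finset.sum_nonneg fun b _ => g0 a b) (Finset.mem_univ a))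
      have h6 : -s a b ≤ n ^ 2 + 1 := by nlinarith
      have h7 : cov w a b = 1 - s a b := by simp [hs]
      linarith
    · rw [wt K hK]; positivity
  -- first order conditions
  have k1 : ∀ a b c, G.Adj a b → G.Adj a c → G.Adj b c → s a b + s a c + s b c ≤ 0 := by
    intro a b c gab gac gbc
    set K : Finset V := {a, b, c} with hK
    have hKc : K.card = 3 := by
      rw [hK, Finset.card_eq_three]
      exact ⟨a, b, c, gab.ne, gac.ne, gbc.ne, rfl⟩
    have hKcl : G.IsClique (K : Set V) := by
      intro x hx y hy hxy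
      simp only [hK, Finset.coe_insert, Finset.coe_singleton, Set.mem_insert_iff,
        Set.mem_singleton_iff] at hx hy
      rcases hx with rfl | rfl | rfl <;> rcases hy with rfl | rfl | rfl
      · exact absurd rfl hxy
      · exact gab
      · exact gac
      · exact gab.symm
      · exact absurd rfl hxy
      · exact gbc
      · exact gac.symm
      · exact gbc.symm
      · exact absurd rfl hxy
    have hsumK : ∀ F : V → V → ℝ, ∑ x, ∑ y, (if x ∈ K ∧ y ∈ K then F x y else 0)
        = ∑ x ∈ K, ∑ y ∈ K, F x y := by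
      intro F
      rw [← Finset.sum_filter_add_sum_filter_not univ (fun x => x ∈ K)]
      have e1 : ∑ x ∈ univ.filter (fun x => ¬ x ∈ K), ∑ y, (if x ∈ K ∧ y ∈ K then F x y else 0) = 0 := by
        refine Finset.sum_eq_zero fun x hx => Finset.sum_eq_zero fun y _ => ?_
        rw [Finset.mem_filter] at hx
        rw [if_neg fun h => hx.2 h.1]
      rw [e1, add_zero, Finset.filter_mem_eq_inter, Finset.univ_inter]
      refine Finset.sum_congr rfl fun x hx => ?_
      rw [← Finset.sum_filter]
      have : univ.filter (fun y => x ∈ K ∧ y ∈ K) = K := by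
        ext y; simp [hx]
      rw [this]
    have hsum3 : ∀ F : V → V → ℝ, (∀ x, F x x = 0) → (∀ x y, F x y = F y x) →
        ∑ x ∈ K, ∑ y ∈ K, F x y = 2 * (F a b + F a c + F b c) := by
      intro F F0 Fs
      rw [hK]
      have n1 : a ∉ ({b, c} : Finset V) := by
        simp [gab.ne, gac.ne]
      have n2 : b ∉ ({c} : Finset V) := by simp [gbc.ne]
      rw [Finset.sum_insert n1, Finset.sum_insert n2, Finset.sum_singleton,
        Finset.sum_insert n1, Finset.sum_insert n2, Finset.sum_singleton,
        Finset.sum_insert n1, Finset.sum_insert n2, Finset.sum_singleton,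
        Finset.sum_insert n1, Finset.sum_insert n2, Finset.sum_singleton,
        F0 a, F0 b, F0 c, Fs b a, Fs c a, Fs c b]
      ring
    have hsl : 0 ≤ -(4 * (s a b + s a c + s b c)) := by
      apply slope_nonneg (C := 6)
      have hsmall : ∀ᶠ t in 𝓝[>] (0 : ℝ), t < 1 :=
        nhdsWithin_le_nhds (gt_mem_nhds (by norm_num))
      have hpos : ∀ᶠ t in 𝓝[>] (0 : ℝ), 0 < t := self_mem_nhdsWithin
      filter_upwards [hsmall, hpos] with t ht1 ht0
      have hzm : (fun L => w L + if L = K then t else 0) ∈ Wei G B := by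
        refine ⟨fun L => ?_, fun L => ?_, fun L hL => ?_⟩
        · show 0 ≤ w L + if L = K then t else 0
          split_ifs
          · linarith [w0 L]
          · linarith [w0 L]
        · show w L + (if L = K then t else 0) ≤ B
          split_ifs
          · linarith [hwb L]
          · linarith [hwb L]
        · show w L + (if L = K then t else 0) = 0
          rw [wt L hL, if_neg, add_zero]
          rintro rfl; exact hL ⟨hKcl, hKc⟩
      have h1 := hle _ hzm
      set F : V → V → ℝ := fun x y => if G.Adj x y then (t ^ 2 - 2 * t * s x y) else 0 with hF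
      have h2 : ∑ x, ∑ y, (if G.Adj x y then (1 - cov (fun L => w L + if L = K then t else 0) x y) ^ 2
          else 0) = ∑ x, ∑ y, (if G.Adj x y then (s x y) ^ 2 else 0)
            + ∑ x, ∑ y, (if x ∈ K ∧ y ∈ K then F x y else 0) := by
        rw [← Finset.sum_add_distrib]
        refine Finset.sum_congr rfl fun x _ => ?_
        rw [← Finset.sum_add_distrib]
        refine Finset.sum_congr rfl fun y _ => ?_
        rw [cov_add]
        simp only [hF, hs]
        by_cases g1 : G.Adj x y
        · by_cases g2 : x ∈ K ∧ y ∈ K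
          · simp only [if_pos g1, if_pos g2]; ring
          · simp only [if_pos g1, if_neg g2]; ring
        · simp only [if_neg g1, ite_self, add_zero]
      rw [h2, hsumK, hsum3 F (fun x => by simp [hF]) (fun x y => by
        simp only [hF, G.adj_comm x y, hss x y])] at h1
      simp only [hF, if_pos gab, if_pos gac, if_pos gbc] at h1
      nlinarith
    linarith
  have k2 : 0 ≤ ∑ a, ∑ b, (if G.Adj a b then s a b * cov w a b else 0) := by
    have hsl : 0 ≤ 2 * ∑ a, ∑ b, (if G.Adj a b then s a b * cov w a b else 0) := by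
      apply slope_nonneg (C := ∑ a, ∑ b, (if G.Adj a b then (cov w a b) ^ 2 else 0))
      have hsmall : ∀ᶠ t in 𝓝[>] (0 : ℝ), t < 1 :=
        nhdsWithin_le_nhds (gt_mem_nhds (by norm_num))
      have hpos : ∀ᶠ t in 𝓝[>] (0 : ℝ), 0 < t := self_mem_nhdsWithin
      filter_upwards [hsmall, hpos] with t ht1 ht0
      have hzm : (fun L => (1 - t) * w L) ∈ Wei G B := by
        refine ⟨fun L => mul_nonneg (by linarith) (w0 L), fun L => ?_, fun L hL => ?_⟩
        · have := w0 L; have := wB L; nlinarith
        · simp only [wt L hL, mul_zero]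
      have h1 := hle _ hzm
      have h2 : ∑ x, ∑ y, (if G.Adj x y then (1 - cov (fun L => (1 - t) * w L) x y) ^ 2 else 0)
          = ∑ x, ∑ y, (if G.Adj x y then (s x y) ^ 2 else 0)
            + t * (2 * ∑ x, ∑ y, (if G.Adj x y then s x y * cov w x y else 0))
            + t ^ 2 * ∑ x, ∑ y, (if G.Adj x y then (cov w x y) ^ 2 else 0) := by
        simp only [Finset.mul_sum, ← Finset.sum_add_distrib]
        refine Finset.sum_congr rfl fun x _ => Finset.sum_congr rfl fun y _ => ?_
        rw [cov_mul]
        simp only [hs]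
        split_ifs <;> ring
      rw [h2] at h1
      linarith
    linarith
  -- the main inequality
  obtain ⟨h, hp, hhmin⟩ := exists_pot hG s
  obtain ⟨y, y0, ys, yt, y1⟩ := exists_mat hss hp hhmin
  have hmain := sum_le_zero hG k1 hp y0 ys yt y1
  have k3 : ∑ a, ∑ b, ext G s a b = ∑ a, ∑ b, (if G.Adj a b then (s a b) ^ 2 else 0)
      + ∑ a, ∑ b, (if G.Adj a b then s a b * cov w a b else 0) := by
    simp only [← Finset.sum_add_distrib]
    refine Finset.sum_congr rfl fun x _ => Finset.sum_congr rfl fun y _ => ?_
    unfold ext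
    split_ifs
    · simp only [hs]; ring
    · ring
  have g0 : ∀ a b, 0 ≤ (if G.Adj a b then (s a b) ^ 2 else 0) := by
    intro a b; split_ifs
    · exact sq_nonneg _
    · exact le_rfl
  have k4 : ∑ a, ∑ b, (if G.Adj a b then (s a b) ^ 2 else 0) = 0 :=
    le_antisymm (by linarith)
      (Finset.sum_nonneg fun a _ => Finset.sum_nonneg fun b _ => g0 a b)
  refine ⟨w, w0, fun K hK => ?_, fun a b hab => ?_⟩
  · by_contra hcon
    exact hK (wt K hcon)
  · have h1 := (Finset.sum_eq_zero_iff_of_nonneg
      (fun a _ => Finset.sum_nonneg fun b _ => g0 a b)).1 k4 a (Finset.mem_univ a)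
    have h2 := (Finset.sum_eq_zero_iff_of_nonneg (fun b _ => g0 a b)).1 h1 b (Finset.mem_univ b)
    rw [if_pos hab] at h2
    have h3 : s a b = 0 := pow_eq_zero_iff (two_ne_zero) |>.1 h2
    simp only [hs] at h3
    linarith

end Pool.FNW
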