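import Mathlib

/-!
The four point inequality and the double counting.
-/

open Finset
open scoped Classical

namespace Pool.FNW

/-- the auxiliary quantity attached to an edge with end potentials `x`, `y` -/
noncomputable def th (x y : ℝ) : ℝ := max (x + y) (max (-x) (-y))

lemma th1 (x y : ℝ) : x + y ≤ th x y := le_max_left _ _
lemma th2 (x y : ℝ) : -x ≤ th x y := (le_max_left _ _).trans (le_max_right _ _)
lemma th3 (x y : ℝ) : -y ≤ th x y := (le_max_right _ _).trans (le_max_right _ _)

lemma th_nonneg (x y : ℝ) : 0 ≤ th x y := by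
  have := th1 x y; have := th2 x y; have := th3 x y
  linarith

lemma th_le {x y c : ℝ} (h1 : x + y ≤ c) (h2 : -x ≤ c) (h3 : -y ≤ c) : th x y ≤ c :=
  max_le h1 (max_le h2 h3)

/-- all four cross pairs present -/
lemma pat0 {x x' y y' ab ac a'b a'c : ℝ}
    (t1 : x + x' + ab + a'b ≤ 0) (t2 : x + x' + ac + a'c ≤ 0)
    (t3 : y + y' + ab + ac ≤ 0) (t4 : y + y' + a'b + a'c ≤ 0)
    (c1 : ab ≤ x + y) (c2 : ac ≤ x + y') (c3 : a'b ≤ x' + y) (c4 : a'c ≤ x' + y') :
    ab + ac + a'b + a'c ≤ -(th x x' + th y y') := by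
  have h1 : th x x' ≤ -(ab + ac + a'b + a'c) / 2 := th_le (by linarith) (by linarith) (by linarith)
  have h2 : th y y' ≤ -(ab + ac + a'b + a'c) / 2 := th_le (by linarith) (by linarith) (by linarith)
  linarith

/-- the pair `a'c` is missing -/
lemma pat1 {x x' y y' ab ac a'b : ℝ}
    (t1 : x + x' + ab + a'b ≤ 0) (t3 : y + y' + ab + ac ≤ 0)
    (c2 : ac ≤ x + y') (c3 : a'b ≤ x' + y) :
    ab + ac + a'b ≤ 0 := by
  linarith

/-- present pairs `ab`, `a'c` -/
lemma pat2m {x x' y y' ab a'c : ℝ} (c1 : ab ≤ x + y) (c4 : a'c ≤ x' + y') :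
    ab + a'c ≤ th x x' + th y y' := by
  have := th1 x x'; have := th1 y y'
  linarith

/-- present pairs `ab`, `ac` -/
lemma pat2c {x x' y y' ab ac : ℝ} (t3 : y + y' + ab + ac ≤ 0)
    (c1 : ab ≤ x + y) (c2 : ac ≤ x + y') :
    ab + ac ≤ th x x' + th y y' := by
  have := th1 x x'; have := th3 x x'; have := th2 y y'; have := th3 y y'
  linarith

/-- one present pair `ab` -/
lemma pat3 {x x' y y' ab : ℝ} (c1 : ab ≤ x + y) :
    ab ≤ 2 * (th x x' + th y y') := by
  have := th1 x x'; have := th3 x x'; have := th1 y y'; have := th3 y y'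
  linarith

variable {V : Type*} [Fintype V] (G : SimpleGraph V)

/-- extension by zero to the non-edges -/
noncomputable def ext (r : V → V → ℝ) (a b : V) : ℝ := if G.Adj a b then r a b else 0

/-- indicator of the non-edges, the diagonal included -/
noncomputable def non (a b : V) : ℝ := if G.Adj a b then 0 else 1

variable {G}

omit [Fintype V] in
/-- the four point inequality -/
lemma four_point {r : V → V → ℝ}
    (ht : ∀ a b c, G.Adj a b → G.Adj a c → G.Adj b c → r a b + r a c + r b c ≤ 0)
    {h : V → ℝ} (hc : ∀ a b, G.Adj a b → r a b ≤ h a + h b)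
    {a a' b c : V} (he : G.Adj a a') (he' : r a a' = h a + h a')
    (hf : G.Adj b c) (hf' : r b c = h b + h c) :
    ext G r a b + ext G r a c + ext G r a' b + ext G r a' c
      ≤ (non G a b + non G a c + non G a' b + non G a' c - 1)
        * (th (h a) (h a') + th (h b) (h c)) := by
  -- triangles
  have T1 : G.Adj a b → G.Adj a' b → h a + h a' + r a b + r a' b ≤ 0 := by
    intro h1 h2
    have := ht a a' b he h1 h2
    linarith
  have T2 : G.Adj a c → G.Adj a' c → h a + h a' + r a c + r a' c ≤ 0 := by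
    intro h1 h2
    have := ht a a' c he h1 h2
    linarith
  have T3 : G.Adj a b → G.Adj a c → h b + h c + r a b + r a c ≤ 0 := by
    intro h1 h2
    have := ht a b c h1 h2 hf
    linarith
  have T4 : G.Adj a' b → G.Adj a' c → h b + h c + r a' b + r a' c ≤ 0 := by
    intro h1 h2
    have := ht a' b c h1 h2 hf
    linarith
  have n1 := th_nonneg (h a) (h a')
  have n2 := th_nonneg (h b) (h c)
  have sy1 : th (h a) (h a') = th (h a') (h a) := by
    unfold th; rw [add_comm, max_comm (-h a) (-h a')]
  have sy2 : th (h b) (h c) = th (h c) (h b) := by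
    unfold th; rw [add_comm, max_comm (-h b) (-h c)]
  unfold ext non
  by_cases p1 : G.Adj a b <;> by_cases p2 : G.Adj a c <;> by_cases p3 : G.Adj a' b <;>
    by_cases p4 : G.Adj a' c <;> simp only [p1, p2, p3, p4, if_true, if_false]
  · -- all present
    have := pat0 (T1 p1 p3) (T2 p2 p4) (T3 p1 p2) (T4 p3 p4) (hc _ _ p1) (hc _ _ p2)
      (hc _ _ p3) (hc _ _ p4)
    linarith
  · -- a'c missing
    have := pat1 (T1 p1 p3) (T3 p1 p2) (hc _ _ p2) (hc _ _ p3)
    linarith
  · -- a'b missing
    have := T2 p2 p4; have := T3 p1 p2; have := hc _ _ p1; have := hc _ _ p4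
    linarith
  · -- a'b, a'c missing
    have := pat2c (x' := h a') (T3 p1 p2) (hc _ _ p1) (hc _ _ p2)
    linarith
  · -- ac missing
    have := T1 p1 p3; have := T4 p3 p4; have := hc _ _ p1; have := hc _ _ p4
    linarith
  · -- ac, a'c missing : present ab, a'b
    have t := T1 p1 p3
    have := pat2c (x := h b) (x' := h c) (y := h a) (y' := h a') (ab := r a b) (ac := r a' b)
      (by linarith) (by have := hc _ _ p1; linarith) (by have := hc _ _ p3; linarith)
    linarith
  · -- ac, a'b missing
    have := pat2m (x := h a) (x' := h a') (y := h b) (y' := h c) (hc _ _ p1) (hc _ _ p4)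
    linarith
  · -- only ab
    have := pat3 (x' := h a') (y' := h c) (hc _ _ p1)
    linarith
  · -- ab missing
    have := T2 p2 p4; have := T4 p3 p4; have := hc _ _ p2; have := hc _ _ p3
    linarith
  · -- ab, a'c missing
    have := hc _ _ p2; have := hc _ _ p3
    have := th1 (h a) (h a'); have := th1 (h b) (h c)
    linarith
  · -- ab, a'b missing : present ac, a'c
    have t := T2 p2 p4
    have := pat2c (x := h c) (x' := h b) (y := h a) (y' := h a') (ab := r a c) (ac := r a' c)
      (by linarith) (by have := hc _ _ p2; linarith) (by have := hc _ _ p4; linarith)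
    linarith
  · -- only ac
    have := pat3 (x' := h a') (y' := h b) (hc _ _ p2)
    linarith
  · -- ab, ac missing : present a'b, a'c
    have := pat2c (x := h a') (x' := h a) (T4 p3 p4) (hc _ _ p3) (hc _ _ p4)
    linarith
  · -- only a'b
    have := pat3 (x' := h a) (y' := h c) (hc _ _ p3)
    linarith
  · -- only a'c
    have := pat3 (x' := h a) (y' := h b) (hc _ _ p4)
    linarith
  · -- none
    linarith

/-- the double counting -/
theorem sum_le_zero (hG : ∀ v, (3 / 4 : ℝ) * Fintype.card V ≤ G.degree v)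
    {r : V → V → ℝ}
    (ht : ∀ a b c, G.Adj a b → G.Adj a c → G.Adj b c → r a b + r a c + r b c ≤ 0)
    {h : V → ℝ} (hc : ∀ a b, G.Adj a b → r a b ≤ h a + h b)
    {y : V → V → ℝ} (y0 : ∀ a b, 0 ≤ y a b) (ys : ∀ a b, y a b = y b a)
    (yt : ∀ a b, y a b ≠ 0 → G.Adj a b ∧ r a b = h a + h b)
    (y1 : ∀ a, ∑ b, y a b = 1) :
    ∑ a, ∑ b, ext G r a b ≤ 0 := by
  -- pointwise inequality, multiplied by the weights
  have hp : ∀ a a' b c, y a a' * y b c * (ext G r a b + ext G r a c + ext G r a' b + ext G r a' c)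
      ≤ y a a' * y b c * ((non G a b + non G a c + non G a' b + non G a' c - 1)
        * (th (h a) (h a') + th (h b) (h c))) := by
    intro a a' b c
    by_cases h1 : y a a' = 0
    · rw [h1]; simp
    by_cases h2 : y b c = 0
    · rw [h2]; simp
    exact mul_le_mul_of_nonneg_left
      (four_point ht hc (yt _ _ h1).1 (yt _ _ h1).2 (yt _ _ h2).1 (yt _ _ h2).2)
      (mul_nonneg (y0 _ _) (y0 _ _))
  have y1' : ∀ b, ∑ a, y a b = 1 := by
    intro b
    rw [← y1 b]
    exact Finset.sum_congr rfl fun a _ => ys a b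
  -- collapsing sums
  have col : ∀ F : V → V → ℝ, ∑ a, ∑ a', ∑ b, ∑ c, y a a' * y b c * F a b = ∑ a, ∑ b, F a b := by
    intro F
    refine Finset.sum_congr rfl fun a _ => ?_
    have : ∀ a', ∑ b, ∑ c, y a a' * y b c * F a b = y a a' * ∑ b, F a b := by
      intro a'
      rw [Finset.mul_sum]
      refine Finset.sum_congr rfl fun b _ => ?_
      rw [← Finset.sum_mul, ← Finset.mul_sum, y1 b, mul_one]
    simp only [this]
    rw [← Finset.sum_mul, y1 a, one_mul]
  have sw1 : ∀ F : V → V → V → V → ℝ, ∑ a, ∑ a', ∑ b, ∑ c, F a a' b c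
      = ∑ a, ∑ a', ∑ b, ∑ c, F a' a b c := by
    intro F; rw [Finset.sum_comm]
  have sw2 : ∀ F : V → V → V → V → ℝ, ∑ a, ∑ a', ∑ b, ∑ c, F a a' b c
      = ∑ a, ∑ a', ∑ b, ∑ c, F a a' c b := by
    intro F
    refine Finset.sum_congr rfl fun a _ => Finset.sum_congr rfl fun a' _ => ?_
    rw [Finset.sum_comm]
  have col2 : ∀ F : V → V → ℝ, ∑ a, ∑ a', ∑ b, ∑ c, y a a' * y b c * F a c = ∑ a, ∑ b, F a b := by
    intro F
    rw [sw2, ← col F]
    refine Finset.sum_congr rfl fun a _ => Finset.sum_congr rfl fun a' _ =>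
      Finset.sum_congr rfl fun b _ => Finset.sum_congr rfl fun c _ => ?_
    rw [ys c b]
  have col3 : ∀ F : V → V → ℝ, ∑ a, ∑ a', ∑ b, ∑ c, y a a' * y b c * F a' b = ∑ a, ∑ b, F a b := by
    intro F
    rw [sw1, ← col F]
    refine Finset.sum_congr rfl fun a _ => Finset.sum_congr rfl fun a' _ =>
      Finset.sum_congr rfl fun b _ => Finset.sum_congr rfl fun c _ => ?_
    rw [ys a' a]
  have col4 : ∀ F : V → V → ℝ, ∑ a, ∑ a', ∑ b, ∑ c, y a a' * y b c * F a' c = ∑ a, ∑ b, F a b := by
    intro F
    rw [sw1, ← col2 F]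
    refine Finset.sum_congr rfl fun a _ => Finset.sum_congr rfl fun a' _ =>
      Finset.sum_congr rfl fun b _ => Finset.sum_congr rfl fun c _ => ?_
    rw [ys a' a]
  have hL : ∑ a, ∑ a', ∑ b, ∑ c, y a a' * y b c *
      (ext G r a b + ext G r a c + ext G r a' b + ext G r a' c) = 4 * ∑ a, ∑ b, ext G r a b := by
    simp only [mul_add, Finset.sum_add_distrib]
    rw [col, col2, col3, col4]; ring
  -- number of non-neighbours
  have hnon : ∀ a, ∑ b, non G a b = Fintype.card V - G.degree a := by
    intro a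
    have h1 : (G.degree a : ℝ) = ∑ b, if G.Adj a b then (1 : ℝ) else 0 := by
      rw [Finset.sum_boole, SimpleGraph.degree, SimpleGraph.neighborFinset_eq_filter]
    have h2 : (Fintype.card V : ℝ) = ∑ _b : V, (1 : ℝ) := by simp
    rw [h1, h2, ← Finset.sum_sub_distrib]
    refine Finset.sum_congr rfl fun b _ => ?_
    unfold non
    split_ifs <;> ring
  have inner : ∀ a a', ∑ b, ∑ c, y b c *
      (non G a b + non G a c + non G a' b + non G a' c - 1) ≤ 0 := by
    intro a a'
    have k1 : ∀ f : V → ℝ, ∑ b, ∑ c, y b c * f b = ∑ b, f b := by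
      intro f
      refine Finset.sum_congr rfl fun b _ => ?_
      rw [← Finset.sum_mul, y1 b, one_mul]
    have k2 : ∀ f : V → ℝ, ∑ b, ∑ c, y b c * f c = ∑ b, f b := by
      intro f
      rw [Finset.sum_comm]
      refine Finset.sum_congr rfl fun b _ => ?_
      rw [← Finset.sum_mul, y1' b, one_mul]
    have k3 : ∑ b, ∑ c, y b c * (1 : ℝ) = Fintype.card V := by
      rw [k1 fun _ => (1 : ℝ)]; simp
    simp only [mul_add, mul_sub, Finset.sum_add_distrib, Finset.sum_sub_distrib]
    rw [k1, k2, k1, k2, k3, hnon, hnon]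
    have := hG a; have := hG a'
    linarith
  have hR1 : ∑ a, ∑ a', ∑ b, ∑ c, y a a' * y b c *
      ((non G a b + non G a c + non G a' b + non G a' c - 1) * th (h a) (h a')) ≤ 0 := by
    refine Finset.sum_nonpos fun a _ => Finset.sum_nonpos fun a' _ => ?_
    have e : ∑ b, ∑ c, y a a' * y b c *
      ((non G a b + non G a c + non G a' b + non G a' c - 1) * th (h a) (h a'))
      = (y a a' * th (h a) (h a')) * ∑ b, ∑ c, y b c *
        (non G a b + non G a c + non G a' b + non G a' c - 1) := by
      rw [Finset.mul_sum]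
      refine Finset.sum_congr rfl fun b _ => ?_
      rw [Finset.mul_sum]
      refine Finset.sum_congr rfl fun c _ => ?_
      ring
    rw [e]
    exact mul_nonpos_of_nonneg_of_nonpos (mul_nonneg (y0 _ _) (th_nonneg _ _)) (inner a a')
  have nons : ∀ a b, non G a b = non G b a := by
    intro a b; unfold non; simp only [G.adj_comm a b]
  have hR2 : ∑ a, ∑ a', ∑ b, ∑ c, y a a' * y b c *
      ((non G a b + non G a c + non G a' b + non G a' c - 1) * th (h b) (h c)) ≤ 0 := by
    have e : ∑ a, ∑ a', ∑ b, ∑ c, y a a' * y b c *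
      ((non G a b + non G a c + non G a' b + non G a' c - 1) * th (h b) (h c))
      = ∑ b, ∑ c, ∑ a, ∑ a', y a a' * y b c *
      ((non G a b + non G a c + non G a' b + non G a' c - 1) * th (h b) (h c)) := by
      calc ∑ a, ∑ a', ∑ b, ∑ c, y a a' * y b c *
            ((non G a b + non G a c + non G a' b + non G a' c - 1) * th (h b) (h c))
          = ∑ a, ∑ b, ∑ a', ∑ c, y a a' * y b c *
            ((non G a b + non G a c + non G a' b + non G a' c - 1) * th (h b) (h c)) :=
            Finset.sum_congr rfl fun a _ => Finset.sum_comm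
        _ = ∑ b, ∑ a, ∑ a', ∑ c, y a a' * y b c *
            ((non G a b + non G a c + non G a' b + non G a' c - 1) * th (h b) (h c)) :=
            Finset.sum_comm
        _ = ∑ b, ∑ a, ∑ c, ∑ a', y a a' * y b c *
            ((non G a b + non G a c + non G a' b + non G a' c - 1) * th (h b) (h c)) :=
            Finset.sum_congr rfl fun b _ => Finset.sum_congr rfl fun a _ => Finset.sum_comm
        _ = ∑ b, ∑ c, ∑ a, ∑ a', y a a' * y b c *
            ((non G a b + non G a c + non G a' b + non G a' c - 1) * th (h b) (h c)) :=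
            Finset.sum_congr rfl fun b _ => Finset.sum_comm
    rw [e]
    refine le_trans (le_of_eq ?_) hR1
    refine Finset.sum_congr rfl fun a _ => Finset.sum_congr rfl fun a' _ =>
      Finset.sum_congr rfl fun b _ => Finset.sum_congr rfl fun c _ => ?_
    rw [nons b a, nons b a', nons c a, nons c a']; ring
  have htot : ∑ a, ∑ a', ∑ b, ∑ c, y a a' * y b c *
      (ext G r a b + ext G r a c + ext G r a' b + ext G r a' c)
      ≤ ∑ a, ∑ a', ∑ b, ∑ c, y a a' * y b c *
      ((non G a b + non G a c + non G a' b + non G a' c - 1)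
        * (th (h a) (h a') + th (h b) (h c))) :=
    Finset.sum_le_sum fun a _ => Finset.sum_le_sum fun a' _ => Finset.sum_le_sum fun b _ =>
      Finset.sum_le_sum fun c _ => hp a a' b c
  have hsplit : ∑ a, ∑ a', ∑ b, ∑ c, y a a' * y b c *
      ((non G a b + non G a c + non G a' b + non G a' c - 1)
        * (th (h a) (h a') + th (h b) (h c)))
      = ∑ a, ∑ a', ∑ b, ∑ c, y a a' * y b c *
      ((non G a b + non G a c + non G a' b + non G a' c - 1) * th (h a) (h a'))
      + ∑ a, ∑ a', ∑ b, ∑ c, y a a' * y b c *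
      ((non G a b + non G a c + non G a' b + non G a' c - 1) * th (h b) (h c)) := by
    simp only [← Finset.sum_add_distrib]
    refine Finset.sum_congr rfl fun a _ => Finset.sum_congr rfl fun a' _ =>
      Finset.sum_congr rfl fun b _ => Finset.sum_congr rfl fun c _ => ?_
    ring
  rw [hL, hsplit] at htot
  linarith

end Pool.FNW
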