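import Mathlib

/-!
The lower bound: graphs with minimum degree `3n/4 - 1` without fractional triangle decomposition.
-/

open Finset
open scoped Classical

namespace Pool.FNW

/-- complete join of two graphs, each a disjoint union of two cliques -/
def blow (m : ℕ) : SimpleGraph (Fin m × Fin 4) where
  Adj u v := u ≠ v ∧ v.2 ≠ u.2 + 2
  symm := by
    refine ⟨?_⟩
    rintro u v ⟨h1, h2⟩
    refine ⟨h1.symm, ?_⟩
    intro h3
    apply h2
    have : ∀ i j : Fin 4, i = j + 2 → j = i + 2 := by decide
    exact this _ _ h3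
  loopless := by
    refine ⟨?_⟩
    rintro u ⟨h, _⟩
    exact h rfl

lemma blow_adj {m : ℕ} (u v : Fin m × Fin 4) :
    (blow m).Adj u v ↔ u ≠ v ∧ v.2 ≠ u.2 + 2 := Iff.rfl

/-- the test function -/
def tf (i j : Fin 4) : ℝ := if i = j then -2 else 1

lemma blow_degree (m : ℕ) (u : Fin m × Fin 4) : (blow m).degree u + 1 = 3 * m := by
  have h1 : (blow m).neighborFinset u ∪ {u} = univ ×ˢ (univ.filter fun j : Fin 4 => j ≠ u.2 + 2) := by
    ext ⟨x, j⟩
    simp only [Finset.mem_union, SimpleGraph.mem_neighborFinset, Finset.mem_singleton,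
      Finset.mem_product, Finset.mem_univ, true_and, Finset.mem_filter, blow_adj]
    constructor
    · rintro (⟨_, h⟩ | h)
      · exact h
      · rw [← h]
        have : ∀ i : Fin 4, i ≠ i + 2 := by decide
        exact this j
    · intro h
      by_cases h2 : (x, j) = u
      · exact Or.inr h2
      · exact Or.inl ⟨fun h3 => h2 h3.symm, h⟩
  have h2 : Disjoint ((blow m).neighborFinset u) {u} := by
    rw [Finset.disjoint_singleton_right]
    simp
  have h3 := Finset.card_union_of_disjoint h2
  rw [h1, Finset.card_product, Finset.card_univ, Fintype.card_fin, Finset.card_singleton,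
    SimpleGraph.card_neighborFinset_eq_degree] at h3
  have h4 : (univ.filter fun j : Fin 4 => j ≠ u.2 + 2).card = 3 := by
    have key : ∀ i : Fin 4, (univ.filter fun j : Fin 4 => j ≠ i + 2).card = 3 := by
      intro i
      have e : (univ.filter fun j : Fin 4 => j ≠ i + 2) = univ.erase (i + 2) := by
        ext j; simp
      rw [e, Finset.card_erase_of_mem (Finset.mem_univ _)]; simp
    exact key u.2
  rw [h4] at h3
  omega

/-- triangles have nonpositive value -/
lemma blow_tri {m : ℕ} {u v w : Fin m × Fin 4} (h1 : (blow m).Adj u v) (h2 : (blow m).Adj u w)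
    (h3 : (blow m).Adj v w) : tf u.2 v.2 + tf u.2 w.2 + tf v.2 w.2 ≤ 0 := by
  have key : ∀ i j k : Fin 4, j ≠ i + 2 → k ≠ i + 2 → k ≠ j + 2 → i = j ∨ i = k ∨ j = k := by decide
  have h := key u.2 v.2 w.2 h1.2 h2.2 h3.2
  unfold tf
  rcases h with h | h | h
  · rw [if_pos h]; split_ifs <;> norm_num
  · rw [if_pos h]; split_ifs <;> norm_num
  · rw [if_pos h]; split_ifs <;> norm_num

/-- total value -/
lemma blow_sum (m : ℕ) :
    ∑ u, ∑ v, (if (blow m).Adj u v then tf u.2 v.2 else 0) = 8 * m := by
  have h1 : ∀ u : Fin m × Fin 4, ∑ v, (if (blow m).Adj u v then tf u.2 v.2 else 0) = 2 := by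
    intro u
    have e1 : ∀ v : Fin m × Fin 4, (if (blow m).Adj u v then tf u.2 v.2 else 0)
        = (if v.2 = u.2 + 2 then 0 else tf u.2 v.2) + (if v = u then 2 else 0) := by
      intro v
      by_cases hv : v = u
      · subst hv
        have : ∀ i : Fin 4, i ≠ i + 2 := by decide
        simp [blow_adj, tf, this v.2]
      · by_cases h2 : v.2 = u.2 + 2
        · simp [blow_adj, hv, h2]
        · have : u ≠ v := fun h => hv h.symm
          simp [blow_adj, hv, h2, this]
    rw [Finset.sum_congr rfl fun v _ => e1 v, Finset.sum_add_distrib, Finset.sum_ite_eq']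
    simp only [Finset.mem_univ, if_true]
    rw [Fintype.sum_prod_type]
    have e2 : ∑ j : Fin 4, (if j = u.2 + 2 then 0 else tf u.2 j) = 0 := by
      have key : ∀ i : Fin 4, ∑ j : Fin 4, (if j = i + 2 then (0 : ℤ) else if i = j then -2 else 1) = 0 := by
        decide
      have := key u.2
      have h3 : ∑ j : Fin 4, (if j = u.2 + 2 then 0 else tf u.2 j)
          = ((∑ j : Fin 4, (if j = u.2 + 2 then (0 : ℤ) else if u.2 = j then -2 else 1) : ℤ) : ℝ) := by
        push_cast
        refine Finset.sum_congr rfl fun j _ => ?_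
        unfold tf
        split_ifs <;> simp
      rw [h3, this]; simp
    simp only [e2, Finset.sum_const_zero, zero_add]
  rw [Finset.sum_congr rfl fun u _ => h1 u, Finset.sum_const, Finset.card_univ, Fintype.card_prod,
    Fintype.card_fin, Fintype.card_fin, nsmul_eq_mul]
  push_cast; ring

end Pool.FNW
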