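import Pool.Agent.FNW.Lower
import Pool.Agent.H34.Dec.Copies

/-!
A test function excludes a fractional triangle decomposition.
-/

open Finset
open scoped Classical

namespace Pool.FNW

open Pool.H34.Dec

/-- weak duality -/
theorem no_dec {V : Type} [Fintype V] {G : SimpleGraph V} {F : V → V → ℝ}
    (hs : ∀ a b, F a b = F b a)
    (ht : ∀ a b c, G.Adj a b → G.Adj a c → G.Adj b c → F a b + F a c + F b c ≤ 0)
    (hpos : 0 < ∑ a, ∑ b, (if G.Adj a b then F a b else 0)) :
    ¬ ∃ w, IsFracDecomp (⊤ : SimpleGraph (Fin 3)) G w := by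
  rintro ⟨w, hw0, hw1, hw2⟩
  -- value of a copy
  have hcopy : ∀ H : G.Subgraph, w H ≠ 0 →
      ∑ a, ∑ b, (if H.Adj a b then F a b else 0) ≤ 0 := by
    intro H hH
    obtain ⟨φ⟩ := hw1 H hH
    set ι : Fin 3 → V := fun i => (φ i : V) with hι
    have hinj : Function.Injective ι := fun i j hij => φ.injective (Subtype.ext hij)
    have hrange : ∀ u, u ∈ H.verts → ∃ i, ι i = u := by
      intro u hu
      refine ⟨φ.symm ⟨u, hu⟩, ?_⟩
      simp [hι]
    have hadj : ∀ i j, i ≠ j → H.Adj (ι i) (ι j) := by
      intro i j hij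
      have : H.coe.Adj (φ i) (φ j) := φ.map_adj_iff.2 (by simpa using hij)
      exact this
    have hsum : ∀ g : V → ℝ, (∀ u, u ∉ H.verts → g u = 0) → ∑ u, g u = ∑ i, g (ι i) := by
      intro g hg
      have e1 : ∑ i, g (ι i) = ∑ u ∈ univ.image ι, g u :=
        (Finset.sum_image fun i _ j _ h => hinj h).symm
      rw [e1]
      symm
      refine Finset.sum_subset (Finset.subset_univ _) fun u _ hu => hg u fun huv => hu ?_
      obtain ⟨i, hi⟩ := hrange u huv
      exact Finset.mem_image.2 ⟨i, Finset.mem_univ i, hi⟩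
    have h1 : ∑ a, ∑ b, (if H.Adj a b then F a b else 0)
        = ∑ i, ∑ j, (if H.Adj (ι i) (ι j) then F (ι i) (ι j) else 0) := by
      rw [hsum]
      · refine Finset.sum_congr rfl fun i _ => ?_
        rw [hsum]
        intro u hu
        rw [if_neg]
        exact fun h => hu (H.edge_vert h.symm)
      · intro u hu
        refine Finset.sum_eq_zero fun v _ => ?_
        rw [if_neg]
        exact fun h => hu (H.edge_vert h)
    rw [h1]
    have a01 := hadj 0 1 (by decide)
    have a02 := hadj 0 2 (by decide)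
    have a12 := hadj 1 2 (by decide)
    have n0 : ¬ H.Adj (ι 0) (ι 0) := fun h => H.loopless.irrefl _ h
    have n1 : ¬ H.Adj (ι 1) (ι 1) := fun h => H.loopless.irrefl _ h
    have n2 : ¬ H.Adj (ι 2) (ι 2) := fun h => H.loopless.irrefl _ h
    simp only [Fin.sum_univ_three, if_pos a01, if_pos a02, if_pos a12, if_pos a01.symm,
      if_pos a02.symm, if_pos a12.symm, if_neg n0, if_neg n1, if_neg n2]
    have := ht _ _ _ (H.adj_sub a01) (H.adj_sub a02) (H.adj_sub a12)
    rw [hs (ι 1) (ι 0), hs (ι 2) (ι 0), hs (ι 2) (ι 1)]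
    linarith
  -- double counting
  have hcov : ∀ a b, G.Adj a b → ∑ H : G.Subgraph, (if H.Adj a b then w H else 0) = 1 := by
    intro a b hab
    have h1 := hw2 s(a, b) ((SimpleGraph.mem_edgeSet G).2 hab)
    rw [← Finset.sum_filter]
    rw [← h1]
    refine Finset.sum_congr ?_ fun _ _ => rfl
    ext H
    simp only [Finset.mem_filter, Finset.mem_univ, true_and]
    exact (SimpleGraph.Subgraph.mem_edgeSet).symm
  have h2 : ∑ a, ∑ b, (if G.Adj a b then F a b else 0)
      = ∑ H : G.Subgraph, w H * ∑ a, ∑ b, (if H.Adj a b then F a b else 0) := by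
    have e1 : ∀ a b, (if G.Adj a b then F a b else 0)
        = ∑ H : G.Subgraph, w H * (if H.Adj a b then F a b else 0) := by
      intro a b
      by_cases hab : G.Adj a b
      · rw [if_pos hab]
        have : ∑ H : G.Subgraph, w H * (if H.Adj a b then F a b else 0)
            = (∑ H : G.Subgraph, (if H.Adj a b then w H else 0)) * F a b := by
          rw [Finset.sum_mul]
          refine Finset.sum_congr rfl fun H _ => ?_
          split_ifs <;> ring
        rw [this, hcov a b hab, one_mul]
      · rw [if_neg hab]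
        symm
        refine Finset.sum_eq_zero fun H _ => ?_
        rw [if_neg, mul_zero]
        exact fun h => hab (H.adj_sub h)
    simp only [e1, Finset.mul_sum]
    rw [Finset.sum_congr rfl fun a _ => Finset.sum_comm, Finset.sum_comm]
  rw [h2] at hpos
  have h3 : ∑ H : G.Subgraph, w H * ∑ a, ∑ b, (if H.Adj a b then F a b else 0) ≤ 0 := by
    refine Finset.sum_nonpos fun H _ => ?_
    by_cases h0 : w H = 0
    · rw [h0, zero_mul]
    · exact mul_nonpos_of_nonneg_of_nonpos (hw0 H).1 (hcopy H h0)
  linarith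

end Pool.FNW
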