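import Pool.Agent.FNW.Core

/-!
Potentials and the touching fractional matching.
-/

open Finset Filter Topology
open scoped Classical

namespace Pool.FNW

variable {V : Type*} [Fintype V] {G : SimpleGraph V}

/-- potentials -/
def IsPot (G : SimpleGraph V) (r : V → V → ℝ) (h : V → ℝ) : Prop :=
  ∀ a b, G.Adj a b → r a b ≤ h a + h b

/-- lower bound for potentials of small sum -/
lemma pot_lower [Nonempty V] (hG : ∀ v, (3 / 4 : ℝ) * Fintype.card V ≤ G.degree v)
    {r : V → V → ℝ} {C : ℝ} (hC : 0 ≤ C) (hr : ∀ a b, -C ≤ r a b) {h : V → ℝ}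
    (hp : IsPot G r h) (hs : ∑ a, h a ≤ Fintype.card V * C) (a : V) : -(4 * C) ≤ h a := by
  obtain ⟨b, hb⟩ := Finite.exists_min h
  refine le_trans ?_ (hb a)
  by_contra hcon
  push Not at hcon
  set n : ℝ := (Fintype.card V : ℝ) with hn
  have hn0 : 0 < n := by rw [hn]; exact_mod_cast Fintype.card_pos
  have h1 : ∀ v, (if G.Adj b v then (-C - h b) else h b) ≤ h v := by
    intro v
    split_ifs with hv
    · have := hp b v hv; have := hr b v; linarith
    · exact hb v
  have h2 : ∑ v, (if G.Adj b v then (-C - h b) else h b) ≤ ∑ v, h v :=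
    Finset.sum_le_sum fun v _ => h1 v
  have h3 : ∑ v, (if G.Adj b v then (-C - h b) else h b)
      = n * h b + G.degree b * (-C - 2 * h b) := by
    have e1 : (G.degree b : ℝ) = ∑ v, if G.Adj b v then (1 : ℝ) else 0 := by
      rw [Finset.sum_boole, SimpleGraph.degree, SimpleGraph.neighborFinset_eq_filter]
    have e2 : n * h b = ∑ _v : V, h b := by
      rw [Finset.sum_const, Finset.card_univ, nsmul_eq_mul]
    rw [e1, e2, Finset.sum_mul, ← Finset.sum_add_distrib]
    refine Finset.sum_congr rfl fun v _ => ?_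
    split_ifs <;> ring
  have h4 := hG b
  have h5 : (3 / 4 : ℝ) * n * (-C - 2 * h b) ≤ G.degree b * (-C - 2 * h b) :=
    mul_le_mul_of_nonneg_right h4 (by linarith)
  have h6 : n * (4 * C + h b) < 0 := mul_neg_of_pos_of_neg hn0 (by linarith)
  have h7 : n * (7 / 4 * C) ≤ n * (-(h b) / 2) := mul_le_mul_of_nonneg_left (by linarith) hn0.le
  have h8 : 0 ≤ n * C := by positivity
  nlinarith

/-- optimal potentials exist -/
theorem exists_pot [Nonempty V] (hG : ∀ v, (3 / 4 : ℝ) * Fintype.card V ≤ G.degree v)
    (r : V → V → ℝ) :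
    ∃ h, IsPot G r h ∧ ∀ h', IsPot G r h' → ∑ a, h a ≤ ∑ a, h' a := by
  set C : ℝ := ∑ a, ∑ b, |r a b| with hC
  have hC0 : 0 ≤ C := Finset.sum_nonneg fun a _ => Finset.sum_nonneg fun b _ => abs_nonneg _
  have hrC : ∀ a b, |r a b| ≤ C := by
    intro a b
    refine (Finset.single_le_sum (f := fun b => |r a b|) (fun b _ => abs_nonneg _)
      (Finset.mem_univ b)).trans ?_
    exact Finset.single_le_sum (f := fun a => ∑ b, |r a b|)
      (fun a _ => Finset.sum_nonneg fun b _ => abs_nonneg _) (Finset.mem_univ a)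
  set n : ℝ := (Fintype.card V : ℝ) with hn
  have hn0 : 0 < n := by rw [hn]; exact_mod_cast Fintype.card_pos
  set K : Set (V → ℝ) := {h | IsPot G r h ∧ ∑ a, h a ≤ n * C} with hK
  have hbox : IsCompact (Set.pi Set.univ fun _ : V => Set.Icc (-(4 * C)) (n * C + n * (4 * C))) :=
    isCompact_univ_pi fun _ => isCompact_Icc
  have hKc : IsCompact K := by
    refine hbox.of_isClosed_subset ?_ ?_
    · have : K = (⋂ a : V, ⋂ b : V, ⋂ _ : G.Adj a b, {h : V → ℝ | r a b ≤ h a + h b}) ∩
          {h : V → ℝ | ∑ a, h a ≤ n * C} := by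
        ext h
        simp only [hK, IsPot, Set.mem_ofPred_eq, Set.mem_inter_iff, Set.mem_iInter]
      rw [this]
      refine IsClosed.inter ?_ ?_
      · exact isClosed_iInter fun a => isClosed_iInter fun b => isClosed_iInter fun _ =>
          isClosed_le continuous_const ((continuous_apply a).add (continuous_apply b))
      · exact isClosed_le (continuous_finsetSum _ fun a _ => continuous_apply a) continuous_const
    · rintro h ⟨hp, hs⟩
      simp only [Set.mem_pi, Set.mem_univ, true_implies, Set.mem_Icc]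
      intro a
      have hl := pot_lower hG hC0 (fun a b => (abs_le.1 (hrC a b)).1) hp hs
      refine ⟨hl a, ?_⟩
      have e1 : ∑ b, (h b + 4 * C) = ∑ b, h b + n * (4 * C) := by
        rw [Finset.sum_add_distrib, Finset.sum_const, Finset.card_univ, nsmul_eq_mul]
      have e2 : h a + 4 * C ≤ ∑ b, (h b + 4 * C) :=
        Finset.single_le_sum (f := fun b => h b + 4 * C) (fun b _ => by linarith [hl b])
          (Finset.mem_univ a)
      linarith
  have hne : K.Nonempty := by
    refine ⟨fun _ => C, fun a b _ => ?_, ?_⟩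
    · have := (abs_le.1 (hrC a b)).2
      linarith
    · rw [Finset.sum_const, Finset.card_univ, nsmul_eq_mul]
  obtain ⟨h, hh, hmin⟩ := hKc.exists_isMinOn hne
    (continuous_finsetSum _ fun a _ => continuous_apply a).continuousOn
    (f := fun h : V → ℝ => ∑ a, h a)
  refine ⟨h, hh.1, fun h' hp' => ?_⟩
  by_cases hs : ∑ a, h' a ≤ n * C
  · exact hmin ⟨hp', hs⟩
  · exact hh.2.trans (not_le.1 hs).le

/-- admissible matchings with capacity -/
def Mat (G : SimpleGraph V) (r : V → V → ℝ) (h : V → ℝ) (B : ℝ) : Set (V → V → ℝ) :=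
  {y | (∀ a b, 0 ≤ y a b) ∧ (∀ a b, y a b ≤ B) ∧ (∀ a b, y a b = y b a) ∧
    ∀ a b, ¬ (G.Adj a b ∧ r a b = h a + h b) → y a b = 0}

omit [Fintype V] in
lemma mat_compact (r : V → V → ℝ) (h : V → ℝ) (B : ℝ) : IsCompact (Mat G r h B) := by
  have hK : IsCompact (Set.pi Set.univ fun _ : V => Set.pi Set.univ fun _ : V => Set.Icc (0 : ℝ) B) :=
    isCompact_univ_pi fun _ => isCompact_univ_pi fun _ => isCompact_Icc
  refine hK.of_isClosed_subset ?_ ?_
  · have hc : ∀ a b : V, Continuous fun z : V → V → ℝ => z a b := fun a b =>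
      (continuous_apply b).comp (continuous_apply a)
    have : Mat G r h B = (⋂ a : V, ⋂ b : V, {z : V → V → ℝ | 0 ≤ z a b}) ∩
        ((⋂ a : V, ⋂ b : V, {z : V → V → ℝ | z a b ≤ B}) ∩
        ((⋂ a : V, ⋂ b : V, {z : V → V → ℝ | z a b = z b a}) ∩
        (⋂ a : V, ⋂ b : V, ⋂ _ : ¬ (G.Adj a b ∧ r a b = h a + h b),
          {z : V → V → ℝ | z a b = 0}))) := by
      ext z
      simp only [Mat, Set.mem_ofPred_eq, Set.mem_inter_iff, Set.mem_iInter]
    rw [this]
    refine IsClosed.inter ?_ (IsClosed.inter ?_ (IsClosed.inter ?_ ?_))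
    · exact isClosed_iInter fun a => isClosed_iInter fun b => isClosed_le continuous_const (hc a b)
    · exact isClosed_iInter fun a => isClosed_iInter fun b => isClosed_le (hc a b) continuous_const
    · exact isClosed_iInter fun a => isClosed_iInter fun b => isClosed_eq (hc a b) (hc b a)
    · exact isClosed_iInter fun a => isClosed_iInter fun b => isClosed_iInter fun _ =>
        isClosed_eq (hc a b) continuous_const
  · intro z hz
    simp only [Set.mem_pi, Set.mem_univ, true_implies, Set.mem_Icc]
    exact fun a b => ⟨hz.1 a b, hz.2.1 a b⟩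

/-- a linear-quadratic function which is nonnegative near zero has nonnegative slope -/
lemma slope_nonneg {A C : ℝ} (h : ∀ᶠ t in 𝓝[>] (0 : ℝ), 0 ≤ t * A + t ^ 2 * C) : 0 ≤ A := by
  have hpos : ∀ᶠ t in 𝓝[>] (0 : ℝ), 0 < t := self_mem_nhdsWithin
  have h2 : ∀ᶠ t in 𝓝[>] (0 : ℝ), 0 ≤ A + t * C := by
    filter_upwards [h, hpos] with t h1 h2
    have : 0 ≤ t * (A + t * C) := by nlinarith
    exact nonneg_of_mul_nonneg_right this h2
  have hcont : Tendsto (fun t : ℝ => A + t * C) (𝓝[>] 0) (𝓝 A) := by
    have : Continuous fun t : ℝ => A + t * C := by fun_prop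
    have h := (this.tendsto 0).mono_left (nhdsWithin_le_nhds (s := Set.Ioi 0))
    simpa using h
  exact ge_of_tendsto hcont h2

/-- optimal potentials carry a touching fractional perfect matching -/
theorem exists_mat {r : V → V → ℝ} (hr : ∀ a b, r a b = r b a) {h : V → ℝ} (hp : IsPot G r h)
    (hmin : ∀ h', IsPot G r h' → ∑ a, h a ≤ ∑ a, h' a) :
    ∃ y : V → V → ℝ, (∀ a b, 0 ≤ y a b) ∧ (∀ a b, y a b = y b a) ∧
      (∀ a b, y a b ≠ 0 → G.Adj a b ∧ r a b = h a + h b) ∧ ∀ a, ∑ b, y a b = 1 := by
  set n : ℝ := (Fintype.card V : ℝ) with hn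
  have hn0 : 0 ≤ n := by rw [hn]; positivity
  have hne : (Mat G r h (n + 3)).Nonempty :=
    ⟨fun _ _ => 0, fun _ _ => le_rfl, fun _ _ => by positivity, fun _ _ => rfl, fun _ _ _ => rfl⟩
  have hcont : Continuous fun y : V → V → ℝ => ∑ a, (1 - ∑ b, y a b) ^ 2 := by
    refine continuous_finsetSum _ fun a _ => ?_
    refine Continuous.pow ?_ 2
    refine continuous_const.sub ?_
    exact continuous_finsetSum _ fun b _ => (continuous_apply b).comp (continuous_apply a)
  obtain ⟨y, hy, hymin⟩ := (mat_compact r h (n + 3)).exists_isMinOn hne hcont.continuousOn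
  obtain ⟨y0, yB, ys, yt⟩ := id hy
  set s : V → ℝ := fun a => 1 - ∑ b, y a b with hs
  have hle : ∀ z ∈ Mat G r h (n + 3), ∑ a, (s a) ^ 2 ≤ ∑ a, (1 - ∑ b, z a b) ^ 2 :=
    fun z hz => hymin hz
  -- total bound
  have hsn : ∑ a, (s a) ^ 2 ≤ n := by
    have := hle (fun _ _ => 0) ⟨fun _ _ => le_rfl, fun _ _ => by positivity, fun _ _ => rfl,
      fun _ _ _ => rfl⟩
    simpa using this
  have hyb : ∀ a b, y a b ≤ n + 2 := by
    intro a b
    have h1 : y a b ≤ ∑ b, y a b :=
      Finset.single_le_sum (f := fun b => y a b) (fun b _ => y0 a b) (Finset.mem_univ b)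
    have h2 : (s a) ^ 2 ≤ n :=
      (Finset.single_le_sum (f := fun a => (s a) ^ 2) (fun a _ => sq_nonneg _)
        (Finset.mem_univ a)).trans hsn
    have h3 : ∑ b, y a b = 1 - s a := by simp [hs]
    have h4 : -s a ≤ n + 1 := by nlinarith
    linarith
  -- first order conditions
  have k1 : ∀ a b, G.Adj a b → r a b = h a + h b → s a + s b ≤ 0 := by
    intro a b hab hrab
    have hne' : a ≠ b := hab.ne
    have hsl : 0 ≤ -(2 * (s a + s b)) := by
      apply slope_nonneg (C := 2)
      have hsmall : ∀ᶠ t in 𝓝[>] (0 : ℝ), t < 1 :=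
        nhdsWithin_le_nhds (gt_mem_nhds (by norm_num))
      have hpos : ∀ᶠ t in 𝓝[>] (0 : ℝ), 0 < t := self_mem_nhdsWithin
      filter_upwards [hsmall, hpos] with t ht1 ht0
      set z : V → V → ℝ := fun u v => y u v + (if (u = a ∧ v = b) ∨ (u = b ∧ v = a) then t else 0)
        with hz
      have hzm : z ∈ Mat G r h (n + 3) := by
        refine ⟨fun u v => ?_, fun u v => ?_, fun u v => ?_, fun u v huv => ?_⟩
        · simp only [hz]; split_ifs
          · linarith [y0 u v]
          · linarith [y0 u v]
        · simp only [hz]; split_ifs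
          · linarith [hyb u v]
          · linarith [hyb u v]
        · simp only [hz, ys u v]
          congr 1
          have : ((u = a ∧ v = b) ∨ (u = b ∧ v = a)) ↔ ((v = a ∧ u = b) ∨ (v = b ∧ u = a)) := by
            tauto
          simp only [this]
        · simp only [hz]
          rw [yt u v huv, if_neg, add_zero]
          rintro (⟨rfl, rfl⟩ | ⟨rfl, rfl⟩)
          · exact huv ⟨hab, hrab⟩
          · exact huv ⟨hab.symm, by rw [hr, hrab]; ring⟩
      have hzs : ∀ u, ∑ v, z u v = ∑ v, y u v + ((if u = a then t else 0) + if u = b then t else 0) := by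
        intro u
        simp only [hz]
        rw [Finset.sum_add_distrib]
        congr 1
        by_cases h1 : u = a
        · subst h1
          have : ∀ v, (if (u = u ∧ v = b) ∨ (u = b ∧ v = u) then t else 0) = if v = b then t else 0 := by
            intro v; simp [hne']
          rw [Finset.sum_congr rfl fun v _ => this v, Finset.sum_ite_eq']
          simp only [Finset.mem_univ, if_true, if_neg hne', add_zero]
        · by_cases h2 : u = b
          · subst h2
            have : ∀ v, (if (u = a ∧ v = u) ∨ (u = u ∧ v = a) then t else 0)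
                = if v = a then t else 0 := by
              intro v; simp [h1]
            rw [Finset.sum_congr rfl fun v _ => this v, Finset.sum_ite_eq']
            simp only [Finset.mem_univ, if_true, if_neg h1, zero_add]
          · simp [h1, h2]
      have h1 := hle z hzm
      have h2 : ∑ u, (1 - ∑ v, z u v) ^ 2 = ∑ u, ((s u) ^ 2 +
          ((if u = a then (t ^ 2 - 2 * t * s a) else 0)
            + if u = b then (t ^ 2 - 2 * t * s b) else 0)) := by
        refine Finset.sum_congr rfl fun u _ => ?_
        rw [hzs]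
        by_cases g1 : u = a
        · subst g1
          simp only [if_true, if_neg hne', add_zero, hs]; ring
        · by_cases g2 : u = b
          · subst g2
            simp only [if_true, if_neg g1, zero_add, hs]; ring
          · simp only [if_neg g1, if_neg g2, hs]; ring
      rw [h2, Finset.sum_add_distrib, Finset.sum_add_distrib, Finset.sum_ite_eq',
        Finset.sum_ite_eq'] at h1
      simp only [Finset.mem_univ, if_true] at h1
      nlinarith
    linarith
  have k2 : 0 ≤ ∑ a, s a * ∑ b, y a b := by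
    have hsl : 0 ≤ 2 * ∑ a, s a * ∑ b, y a b := by
      apply slope_nonneg (C := ∑ a, (∑ b, y a b) ^ 2)
      have hsmall : ∀ᶠ t in 𝓝[>] (0 : ℝ), t < 1 :=
        nhdsWithin_le_nhds (gt_mem_nhds (by norm_num))
      have hpos : ∀ᶠ t in 𝓝[>] (0 : ℝ), 0 < t := self_mem_nhdsWithin
      filter_upwards [hsmall, hpos] with t ht1 ht0
      have hzm : (fun u v => (1 - t) * y u v) ∈ Mat G r h (n + 3) := by
        refine ⟨fun u v => mul_nonneg (by linarith) (y0 u v), fun u v => ?_, fun u v => ?_,
          fun u v huv => ?_⟩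
        · have := y0 u v; have := yB u v; nlinarith
        · simp only [ys u v]
        · simp only [yt u v huv, mul_zero]
      have h1 := hle _ hzm
      have h2 : ∑ u, (1 - ∑ v, (1 - t) * y u v) ^ 2
          = ∑ u, ((s u) ^ 2 + t * (2 * (s u * ∑ b, y u b)) + t ^ 2 * (∑ b, y u b) ^ 2) := by
        refine Finset.sum_congr rfl fun u _ => ?_
        rw [← Finset.mul_sum]
        simp only [hs]; ring
      rw [h2, Finset.sum_add_distrib, Finset.sum_add_distrib, ← Finset.mul_sum, ← Finset.mul_sum,
        ← Finset.mul_sum] at h1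
      linarith
    linarith
  have k3 : ∑ a, (s a) ^ 2 ≤ ∑ a, s a := by
    have : ∑ a, s a = ∑ a, ((s a) ^ 2 + s a * ∑ b, y a b) := by
      refine Finset.sum_congr rfl fun a _ => ?_
      simp only [hs]; ring
    rw [this, Finset.sum_add_distrib]
    linarith
  -- the potentials cannot be improved
  have k4 : ∑ a, s a ≤ 0 := by
    have hev : ∀ᶠ t in 𝓝[>] (0 : ℝ), IsPot G r fun a => h a - t * s a := by
      have hpos : ∀ᶠ t in 𝓝[>] (0 : ℝ), 0 < t := self_mem_nhdsWithin
      have : ∀ a b : V, ∀ᶠ t in 𝓝[>] (0 : ℝ),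
          (G.Adj a b → r a b ≤ (h a - t * s a) + (h b - t * s b)) := by
        intro a b
        by_cases hab : G.Adj a b
        · rcases eq_or_lt_of_le (hp a b hab) with he | he
          · filter_upwards [hpos] with t ht _
            have := k1 a b hab he
            nlinarith
          · have hcont : Tendsto (fun t : ℝ => (h a - t * s a) + (h b - t * s b)) (𝓝[>] 0)
                (𝓝 (h a + h b)) := by
              have : Continuous fun t : ℝ => (h a - t * s a) + (h b - t * s b) := by fun_prop
              have h := (this.tendsto 0).mono_left (nhdsWithin_le_nhds (s := Set.Ioi 0))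
              simpa using h
            filter_upwards [hcont.eventually (lt_mem_nhds he)] with t ht _
            exact ht.le
        · exact Eventually.of_forall fun t h => absurd h hab
      have h2 : ∀ᶠ t in 𝓝[>] (0 : ℝ), ∀ a b : V,
          (G.Adj a b → r a b ≤ (h a - t * s a) + (h b - t * s b)) := by
        rw [eventually_all]; intro a
        rw [eventually_all]; intro b
        exact this a b
      filter_upwards [h2] with t ht
      exact fun a b hab => ht a b hab
    have hpos : ∀ᶠ t in 𝓝[>] (0 : ℝ), 0 < t := self_mem_nhdsWithin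
    obtain ⟨t, ht, ht0⟩ := (hev.and hpos).exists
    have h1 := hmin _ ht
    rw [Finset.sum_sub_distrib, ← Finset.mul_sum] at h1
    nlinarith
  have k5 : ∑ a, (s a) ^ 2 = 0 :=
    le_antisymm (k3.trans k4) (Finset.sum_nonneg fun a _ => sq_nonneg _)
  refine ⟨y, y0, ys, fun a b hab => ?_, fun a => ?_⟩
  · by_contra hcon
    exact hab (yt a b hcon)
  · have h1 := (Finset.sum_eq_zero_iff_of_nonneg (fun a _ => sq_nonneg (s a))).1 k5 a
      (Finset.mem_univ a)
    have h2 : s a = 0 := pow_eq_zero_iff (two_ne_zero) |>.1 h1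
    simp only [hs] at h2
    linarith

end Pool.FNW
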